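import Mathlib
import Pool.Agent.R522.HN.Defs
import Pool.Agent.R522.HN.Main

/-!
# The dual `H^1` matrix norm and the `H^4` norm: the conjectured lower bound fails (MP_1d723d_an)

For `n = 7` there is a (diagonal) real matrix `A` with `‖A‖_{H^1_*} < c_7 ‖A‖_{H^4}`, where `c_7` is
the value of the quotient at the orthogonal projections of rank two. Hence the two-sided inequality
of Q1 is false. The matrix is `A = 7 E (B x) xᵀ / |B x|` with `B = diag(1, s, ..., s)`,
`s = 64/1025`: a projection of rank one plus a small multiple of the complementary projection.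
-/

set_option autoImplicit false

namespace Pool.Agent.Results.MP_1d723d_an.LowerBoundFails

open Pool.Agent.R522.HN

/-- The lower bound `c_n ‖A‖_{H^4} ≤ ‖A‖_{H^1_*}` fails for `n = 7`, so the two-sided inequality is
not true for all `n > 2`. -/
theorem result :
    (∃ A : Matrix (Fin 7) (Fin 7) ℝ, Hd A < cn 7 * Hn 4 A) ∧
    ¬ ∀ n : ℕ, 2 < n → ∀ A : Matrix (Fin n) (Fin n) ℝ, cn n * Hn 4 A ≤ Hd A ∧ Hd A ≤ Hn 4 A := by
  refine ⟨⟨_, main⟩, fun h => ?_⟩
  exact absurd (h 7 (by norm_num) (Am s0)).1 (not_le.2 main)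

end Pool.Agent.Results.MP_1d723d_an.LowerBoundFails
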